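import Mathlib
import Pool.Agent.R506.SumProd

/-!
# A set with more sums than differences and more products than ratios

There is a finite nonempty set `A` of positive integers with `|A + A| > |A - A|` and `|A · A| > |A / A|`.

Construction: let `T = {0,2,3,4,7,11,12,14}` be Conway's set and let `U_n` be the set of all integers with `n`
digits to the base 29, all of them in `T`. Then `A = {29^s (κ + 29 u) : s ∈ U_18, u ∈ U_D}`, where `D` is large and
`κ ≡ 1 mod 29` is very large. Products behave like sums of the exponents `s`, times generic products; for sums, only
the digits of `u` matter when `D` is large, because the exponents shift the digits by a bounded amount.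
-/

set_option autoImplicit false

open Finset

namespace Pool.Agent.Results.MP_9356de_co.Exists

/-- The sumset `A + A`. -/
def sums (A : Finset ℕ) : Finset ℕ := (A ×ˢ A).image fun p => p.1 + p.2

/-- The difference set `A - A` (in the integers). -/
def diffs (A : Finset ℕ) : Finset ℤ := (A ×ˢ A).image fun p => (p.1 : ℤ) - p.2

/-- The product set `A · A`. -/
def prods (A : Finset ℕ) : Finset ℕ := (A ×ˢ A).image fun p => p.1 * p.2

/-- The ratio set `A / A` (in the rationals). -/
def ratios (A : Finset ℕ) : Finset ℚ := (A ×ˢ A).image fun p => (p.1 : ℚ) / p.2

theorem result : ∃ A : Finset ℕ, A.Nonempty ∧ (∀ a ∈ A, 1 ≤ a) ∧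
    (diffs A).card < (sums A).card ∧ (ratios A).card < (prods A).card :=
  Pool.Agent.R506.SumProd.exists_set

end Pool.Agent.Results.MP_9356de_co.Exists
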